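import Pool.Agent.K6.H51.MHA.Dist

/-!
# The magnitude homology of a real hyperplane arrangement is determined by its intersection lattice
-/

set_option autoImplicit false

namespace Pool.Agent.Results.MP_1c795d_co.LatticeDeterminesMH

open N431.Hyp Pool.Agent.R142.MagHom Pool.Agent.K6.H51.MHA

/-- The intersection lattice of a finite set of linear hyperplanes of `ℝ^d`: the set of all
intersections of subsets (the empty intersection is `ℝ^d`). -/
def InterLattice {d : ℕ} (A : Finset (Submodule ℝ (Fin d → ℝ))) : Type :=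
  {X : Submodule ℝ (Fin d → ℝ) // ∃ S : Set (Submodule ℝ (Fin d → ℝ)), S ⊆ A ∧ X = sInf S}

/-- The intersection lattice is ordered by reverse inclusion. -/
instance {d : ℕ} (A : Finset (Submodule ℝ (Fin d → ℝ))) : PartialOrder (InterLattice A) where
  le X Y := Y.1 ≤ X.1
  le_refl _ := le_rfl
  le_trans _ _ _ h h' := le_trans h' h
  le_antisymm _ _ h h' := Subtype.ext (le_antisymm h' h)

theorem mem_LF_iff {d : ℕ} {A : Finset (Submodule ℝ (Fin d → ℝ))} {fn : A → (Fin d → ℝ) →ₗ[ℝ] ℝ}
    (hfn : ∀ H : A, LinearMap.ker (fn H) = H.1) (X : Submodule ℝ (Fin d → ℝ)) :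
    X ∈ LF fn ↔ ∃ S : Set (Submodule ℝ (Fin d → ℝ)), S ⊆ A ∧ X = sInf S := by
  classical
  rw [mem_LF]
  constructor
  · rintro ⟨S, rfl⟩
    refine ⟨Subtype.val '' (S : Set A), ?_, ?_⟩
    · rintro _ ⟨H, _, rfl⟩
      exact H.2
    · ext v
      rw [mem_cap, Submodule.mem_sInf]
      constructor
      · rintro h _ ⟨H, hH, rfl⟩
        rw [← hfn H]
        exact h H hH
      · intro h H hH
        have := h H.1 ⟨H, hH, rfl⟩
        rw [← hfn H] at this
        exact this
  · rintro ⟨S, hS, rfl⟩
    refine ⟨Finset.univ.filter fun H : A => H.1 ∈ S, ?_⟩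
    ext v
    rw [mem_cap, Submodule.mem_sInf]
    constructor
    · intro h H hH
      have := h ⟨H, hS hH⟩ (by simp [hH])
      have h2 : v ∈ LinearMap.ker (fn ⟨H, hS hH⟩) := this
      rw [hfn] at h2
      exact h2
    · intro h H hH
      have h2 : H.1 ∈ S := by simpa using hH
      have h3 : v ∈ H.1 := h _ h2
      rw [← hfn H] at h3
      exact h3

/-- the isomorphism of the lattices in terms of the functionals -/
def toLT {d : ℕ} {A : Finset (Submodule ℝ (Fin d → ℝ))} {fn : A → (Fin d → ℝ) →ₗ[ℝ] ℝ}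
    (hfn : ∀ H : A, LinearMap.ker (fn H) = H.1) : LT fn ≃ InterLattice A where
  toFun X := ⟨X.1, (mem_LF_iff hfn X.1).1 X.2⟩
  invFun X := ⟨X.1, (mem_LF_iff hfn X.1).2 X.2⟩
  left_inv _ := rfl
  right_inv _ := rfl

/-- **Theorem.** (1) All magnitude homology groups of the tope graph of a real central hyperplane
arrangement are free abelian of finite rank. (2) If two real central hyperplane arrangements
(possibly in different dimensions) have isomorphic intersection lattices, then all magnitude
homology groups of their tope graphs are isomorphic. -/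
theorem result :
    (∀ (d : ℕ) (A : Finset (Submodule ℝ (Fin d → ℝ))), (∀ H ∈ A, IsHyperplane H) →
      ∀ k l : ℕ, ∃ n : ℕ, Nonempty (MH (topeGraph A) k l ≃+ (Fin n → ℤ))) ∧
    ∀ (d d' : ℕ) (A : Finset (Submodule ℝ (Fin d → ℝ))) (A' : Finset (Submodule ℝ (Fin d' → ℝ))),
      (∀ H ∈ A, IsHyperplane H) → (∀ H ∈ A', IsHyperplane H) →
      Nonempty (InterLattice A ≃o InterLattice A') →
      ∀ k l : ℕ, Nonempty (MH (topeGraph A) k l ≃+ MH (topeGraph A') k l) := by
  constructor
  · intro d A hA k l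
    obtain ⟨fn, hfn, hfn0, hr, hs, hd⟩ := tope_facts hA
    obtain ⟨e1⟩ := MH_equiv hs hr hd k l
    obtain ⟨e2⟩ := HG_full (f := fn) k l
    exact ⟨_, ⟨e1.trans e2⟩⟩
  · rintro d d' A A' hA hA' ⟨ψ⟩ k l
    obtain ⟨fn, hfn, hfn0, hr, hs, hd⟩ := tope_facts hA
    obtain ⟨fn', hfn', hfn0', hr', hs', hd'⟩ := tope_facts hA'
    obtain ⟨e1⟩ := MH_equiv hs hr hd k l
    obtain ⟨e2⟩ := HG_full (f := fn) k l
    obtain ⟨e1'⟩ := MH_equiv hs' hr' hd' k l
    obtain ⟨e2'⟩ := HG_full (f := fn') k l
    have hinj : Function.Injective fun i => LinearMap.ker (fn i) := by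
      intro i j hij
      simp only [hfn] at hij
      exact Subtype.ext hij
    have hinj' : Function.Injective fun i => LinearMap.ker (fn' i) := by
      intro i j hij
      simp only [hfn'] at hij
      exact Subtype.ext hij
    let φ : LT fn ≃o LT fn' :=
      { toEquiv := (toLT hfn).trans (ψ.toEquiv.trans (toLT hfn').symm)
        map_rel_iff' := by
          intro X Y
          have h : ψ (toLT hfn Y) ≤ ψ (toLT hfn X) ↔ toLT hfn Y ≤ toLT hfn X := ψ.le_iff_le
          exact h }
    have h := iso_NN_univ hfn0 hinj hfn0' hinj' φ (k + 1) l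
    rw [h] at e2'
    exact ⟨(e1.trans e2).trans (e1'.trans e2').symm⟩

end Pool.Agent.Results.MP_1c795d_co.LatticeDeterminesMH
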